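import Pool.Agent.H40.Js6

set_option autoImplicit false

namespace Pool.Agent.Results.MP_52363e_lc.FreeInAmenable

open Set Filter
open FreeGroup (of lift startsWith startsWith_mk_mul freeGroupCongr map_injective)
open Pool.Agent.H40.Bspt Pool.Agent.H40.Jz Pool.Agent.H40.Js

/-- `m` restricted to `G` is the graph of the multiplication of the group structure `i` -/
def IsMul {M : Type} (E : M → M → Prop) (G m : M) (i : Group (Ex E G)) : Prop :=
  ∀ x y z : Ex E G, Op E m x.1 y.1 z.1 ↔ z = i.mul x y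

/-- a left invariant finitely additive probability measure on all subsets of `G` in the model -/
def IsMean {M : Type} {E : M → M → Prop} (ℛ : Reals E) (G m : M)
    (μ : {S // Sub E S G} → Ex E ℛ.R) : Prop :=
  Intl E (fun S => (μ S).1) ∧ (∀ S, 0 ≤ μ S ∧ μ S ≤ 1) ∧ μ ⟨G, fun _ h => h⟩ = 1 ∧
    (∀ S T U, (∀ z, E z S.1 → ¬ E z T.1) → (∀ z, E z U.1 ↔ E z S.1 ∨ E z T.1) →
      μ U = μ S + μ T) ∧
    ∀ g, E g G → ∀ S T, (∀ y, E y G → (E y T.1 ↔ ∃ x, E x S.1 ∧ Op E m g x y)) → μ T = μ S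

abbrev F := FreeGroup ℕ

def L : Subgroup (MulAut F) where
  carrier := {γ | ∀ᶠ n in atTop, γ (of n) = of n}
  mul_mem' := fun {a b} ha hb => by
    filter_upwards [ha, hb] with n h1 h2
    show a (b (of n)) = _
    rw [h2, h1]
  one_mem' := Eventually.of_forall fun _ => rfl
  inv_mem' := fun {a} ha => by
    filter_upwards [ha] with n h1
    exact a.symm_apply_eq.2 h1.symm

instance : NF L := suppNF L (univ : Set F) fun _ _ _ => trivial

theorem fx (a : F) : ∀ᶠ g in NF.F (Γ := L), g • a = a :=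
  supp_iff.2 ⟨{a}, finite_singleton a, subset_univ _, fun _ h => h a rfl⟩

theorem fin_dep (w : F) : ∀ᶠ k in atTop, ∀ φ : F →* F, (∀ i < k, φ (of i) = of i) → φ w = w := by
  induction w using FreeGroup.induction_on with
  | C1 => exact Eventually.of_forall fun _ φ _ => map_one φ
  | of x => filter_upwards [eventually_gt_atTop x] with k hk φ h using h x hk
  | inv_of x ih => filter_upwards [ih] with k hk φ h using by rw [map_inv, hk φ h]
  | mul x y h1 h2 => filter_upwards [h1, h2] with k a b φ h using by rw [map_mul, a φ h, b φ h]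

theorem supp (S : PS L F) : ∀ᶠ k in atTop, ∀ g : L, (∀ i < k, g • (of i : F) = of i) →
    ∀ x, g • x ∈ S.1 ↔ x ∈ S.1 := by
  obtain ⟨D, h1, -, h2⟩ := supp_iff.1 S.2
  filter_upwards [(eventually_all_finite h1).2 fun w _ => fin_dep w] with k hk g hg
  exact h2 g fun y hy => hk y hy g.1.toMonoidHom hg

theorem dich (S : PS L F) : (∀ᶠ n in atTop, of n ∈ S.1) ∨ ∀ᶠ n in atTop, of n ∉ S.1 := by
  obtain ⟨k, hk⟩ := (supp S).exists
  have : ∀ n ≥ k, of n ∈ S.1 ↔ of k ∈ S.1 := fun n hn => by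
    have := hk ⟨freeGroupCongr (Equiv.swap k n), by
      filter_upwards [eventually_gt_atTop n] with i hi
      simp [Equiv.swap_apply_of_ne_of_ne (show i ≠ k by omega) hi.ne']⟩ (fun i hi => by
        show freeGroupCongr _ _ = _
        simp [Equiv.swap_apply_of_ne_of_ne hi.ne (show i ≠ n by omega)]) (of k)
    rw [← this]
    show _ ↔ freeGroupCongr _ _ ∈ _
    simp
  by_cases h : of k ∈ S.1
  · exact Or.inl ((eventually_ge_atTop k).mono fun n hn => (this n hn).2 h)
  · exact Or.inr ((eventually_ge_atTop k).mono fun n hn e => h ((this n hn).1 e))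

theorem nielsen (S : PS L F) (g : F) : ∀ᶠ n in atTop, (g * of n ∈ S.1 ↔ of n ∈ S.1) := by
  filter_upwards [supp S, fin_dep g] with n h1 h2
  let φ : F → F →* F := fun c => lift (Function.update of n (c * of n))
  have h3 : ∀ c i, i ≠ n → φ c (of i) = of i := fun c i hi => by simp [φ, hi]
  have h4 : ∀ c, φ c (of n) = c * of n := fun c => by simp [φ]
  have h5 : ∀ c, φ c g = g := fun c => h2 _ fun i hi => h3 c i hi.ne
  have h6 : ∀ c d, φ c d = d → c * d = 1 → (φ c).comp (φ c⁻¹) = MonoidHom.id _ := by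
    intro c d a b
    ext i
    by_cases hi : i = n
    · subst hi
      rw [inv_eq_of_mul_eq_one_right b]
      simp [h4, a, ← mul_assoc, mul_eq_one_comm.1 b]
    · simp [h3 _ i hi]
  have := h1 ⟨MonoidHom.toMulEquiv (φ g) (φ g⁻¹) (by simpa using h6 g⁻¹ g (h5 _) (by simp))
    (h6 g g⁻¹ (by rw [map_inv, h5]) (by simp)), by
      filter_upwards [eventually_gt_atTop n] with i hi using h3 g i hi.ne'⟩
    (fun i hi => h3 g i hi.ne) (of n)
  rw [← this, ← h4]
  rfl

theorem nonamen (H : Set F) (h0 : of 0 ∈ H) (h1 : of 1 ∈ H) (m : Set F → ℝ)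
    (pos : ∀ S, 0 ≤ m S) (one : m univ = 1)
    (add : ∀ S T, Disjoint S T → m (S ∪ T) = m S + m T)
    (inv : ∀ h ∈ H, ∀ S, m ((h * ·) '' S) = m S) : False := by
  have mono : ∀ S T, S ⊆ T → m S ≤ m T := fun S T h => by
    have := add S (T \ S) disjoint_sdiff_right
    rw [union_sdiff_cancel h] at this
    linarith [pos (T \ S)]
  have key : ∀ i, of i ∈ H → 1 ≤ m (startsWith (i, true) ∪ startsWith (i, false)) := fun i hi => by
    have a := add (startsWith (i, false)) _ disjoint_compl_right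
    have b := mono ((of i * ·) '' (startsWith (i, false))ᶜ) (startsWith (i, true)) (by
      rintro _ ⟨g, hg, rfl⟩
      exact startsWith_mk_mul (w := (i, true)) g hg)
    rw [inv _ hi] at b
    rw [union_compl_self, one] at a
    rw [add _ _ (by simp)]
    linarith
  have a := add (startsWith (0, true) ∪ startsWith (0, false))
    (startsWith (1, true) ∪ startsWith (1, false)) (by simp)
  linarith [key 0 h0, key 1 h1, mono _ _ (subset_univ ((startsWith (0, true) ∪
    startsWith (0, false)) ∪ (startsWith (1, true) ∪ startsWith (1, false))))]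

def H : Subgroup F := (FreeGroup.map (Fin.val : Fin 2 → ℕ)).range

theorem fixH : ∀ᶠ g in NF.F (Γ := L), ∀ x ∈ H, g • x = x := by
  filter_upwards [eventually_all.2 fun i : Fin 2 => fx (of i)] with g hg
  rintro _ ⟨x, rfl⟩
  exact DFunLike.congr_fun (show g.1.toMonoidHom.comp (FreeGroup.map Fin.val) = FreeGroup.map Fin.val
    from by ext i; exact hg i) x

def tr (S : Set F) : PS L F := ⟨S ∩ H, sym_of (fixH.mono fun g hg x hx => by rwa [hg x hx.2])⟩

def mulN : PS L (El L F (.p (.p .a .a) .a)) :=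
  ps {z : (F × F) × F | z.2 = z.1.1 * z.1.2} (sym_all fun g (z : (F × F) × F) (h : z.2 = _) =>
    (congrArg g.1 h).trans (map_mul g.1 _ _))

theorem op_iff (J : JS L F) {x y z : F} :
    Op J.E (J.ν (.w (.p (.p .a .a) .a)) mulN) (J.nA x) (J.nA y) (J.nA z) ↔ z = x * y :=
  (J.op_nu (s := .a) (t := .a) (u := .a)).trans
    ((J.app_nu (s := .p .a .a) (t := .a)).trans J.mem')

theorem isMul (J : JS L F) (K : Subgroup F) (h : Sym L (K : Set F)) :
    ∃ i : Group (Ex J.E (J.sA ⟨K, h⟩)), IsMul J.E _ (J.ν (.w (.p (.p .a .a) .a)) mulN) i ∧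
      Nonempty (K ≃* Ex J.E (J.sA ⟨K, h⟩)) := by
  let e : Ex J.E (J.sA ⟨K, h⟩) ≃ K := (J.eA ⟨K, h⟩).symm
  letI := e.group
  refine ⟨this, fun x y z => ?_, ⟨e.mulEquiv.symm⟩⟩
  obtain ⟨x, rfl⟩ := e.symm.surjective x
  obtain ⟨y, rfl⟩ := e.symm.surjective y
  obtain ⟨z, rfl⟩ := e.symm.surjective z
  refine (op_iff J).trans ?_
  show _ ↔ e.symm z = e.symm (e (e.symm x) * e (e.symm y))
  rw [e.symm.injective.eq_iff, e.apply_symm_apply, e.apply_symm_apply]
  exact Subtype.val_inj (a := z) (b := x * y)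

theorem result : ∃ (M : Type) (E : M → M → Prop), IsZF E ∧
    (∀ n, IsNat E n → {z | E z n}.Finite) ∧
    ∃ (ℛ : Reals E) (G H m : M) (i : Group (Ex E G)) (j : Group (Ex E H)),
      IsMul E G m i ∧ Sub E H G ∧ IsMul E H m j ∧ Nonempty (FreeGroup (Fin 2) ≃* Ex E H) ∧
        (∃ μ, IsMean ℛ G m μ ∧ ∀ S, μ S = 0 ∨ μ S = 1) ∧ ¬ ∃ μ, IsMean ℛ H m μ := by
  classical
  obtain ⟨J⟩ := ex_js fx
  have hH : Sym L (H : Set F) := sym_of (fixH.mono fun g hg x hx => by rwa [hg x hx])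
  have hT : Sym L ((⊤ : Subgroup F) : Set F) := sym_all fun _ _ _ => trivial
  obtain ⟨i, hi, -⟩ := isMul J ⊤ hT
  obtain ⟨j, hj, ⟨e⟩⟩ := isMul J H hH
  refine ⟨J.M, J.E, J.zf, fun n hn => ?_, J.reals, _, _, _, i, j, hi,
    J.subA_iff.2 fun _ _ => trivial, hj, ⟨(MonoidHom.ofInjective
      (map_injective Fin.val_injective)).trans e⟩, ?_, ?_⟩
  · obtain ⟨n, rfl⟩ := J.nat_iff.1 hn
    exact ((finite_lt_nat n).image fun m : ℕ => J.ν .n m).subset fun z hz => by
      obtain ⟨m, h, e⟩ := (J.nat n z).1 hz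
      exact ⟨m, h, e.symm⟩
  · refine ⟨fun S => if ∀ᶠ n in atTop, J.E (J.nA (of n)) S.1 then 1 else 0,
      ⟨?_, fun S => by dsimp only; split_ifs <;> simp, if_pos (Eventually.of_forall fun _ =>
        J.memA.2 (Subgroup.mem_top _)), ?_, ?_⟩, fun S => by dsimp only; split_ifs <;> simp⟩
    · refine J.intl_real (s := .w .a) univ
        (fun S : PS L F => if ∀ᶠ n in atTop, of n ∈ S.1 then 1 else 0)
        (Eventually.of_forall fun g S _ => ⟨trivial, if_congr (eventually_congr ?_) rfl rfl⟩)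
        fun S => ?_
      · filter_upwards [g⁻¹.2] with n hn
        exact iff_of_eq (congrArg (· ∈ S.1) hn)
      · obtain ⟨u, -, e⟩ := J.subA S.2
        refine ⟨u, trivial, e, ?_⟩
        simp only [e, J.memA]
        split_ifs <;> simp
    · rintro ⟨S, hS⟩ ⟨T, hT⟩ ⟨U, hU⟩ h1 h2
      obtain ⟨s, -, rfl⟩ := J.subA hS
      obtain ⟨t, -, rfl⟩ := J.subA hT
      simp only [h2, J.memA]
      have h3 : ∀ n, of n ∈ s.1 → of n ∉ t.1 := fun n a b => h1 _ (J.memA.2 a) (J.memA.2 b)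
      rcases dich s with a | a
      · rw [if_pos (a.mono fun _ => Or.inl), if_pos a, if_neg, add_zero]
        exact fun b => (a.and b).exists.elim fun n h => h3 n h.1 h.2
      · have : ¬ ∀ᶠ n in atTop, of n ∈ s.1 := fun b => (a.and b).exists.elim fun n h => h.1 h.2
        rw [if_neg this, zero_add]
        exact if_congr (eventually_congr (a.mono fun n h => or_iff_right h)) rfl rfl
    · rintro g hg ⟨S, hS⟩ ⟨T, hT⟩ h
      obtain ⟨g, -, rfl⟩ := J.elA hg
      obtain ⟨s, -, rfl⟩ := J.subA hS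
      refine if_congr (eventually_congr ((nielsen s g⁻¹).mono fun n hn => ?_)) rfl rfl
      rw [h _ (J.memA.2 (Subgroup.mem_top _)), J.exA, J.memA, ← hn]
      simp only [op_iff]
      exact ⟨fun ⟨x, a, b⟩ => by rwa [b, inv_mul_cancel_left], fun a => ⟨_, a, by simp⟩⟩
  · rintro ⟨μ, -, h1, h2, h3, h4⟩
    let σ : Set F → {S // Sub J.E S (J.sA ⟨H, hH⟩)} := fun S =>
      ⟨J.sA (tr S), J.subA_iff.2 inter_subset_right⟩
    refine nonamen H ⟨of 0, rfl⟩ ⟨of 1, rfl⟩ (fun S => J.rI (μ (σ S)))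
      (fun S => by simpa using (map_le_map_iff J.rI).2 (h1 (σ S)).1) ?_ (fun S T h => ?_)
      fun g hg S => congrArg _ (h4 (J.nA g) (J.memA.2 hg) _ _ (J.allA.2 fun y hy => ?_))
    · rw [← map_one J.rI, ← h2]
      exact congrArg (fun s => J.rI (μ s)) (Subtype.ext (congrArg J.sA (Subtype.ext (univ_inter _))))
    · rw [← map_add]
      refine congrArg _ (h3 _ _ _ (J.allA.2 fun x a b => disjoint_left.1 h a.1 (J.memA.1 b).1)
        fun z => ⟨fun a => ?_, fun a => ?_⟩)
      · obtain ⟨x, hx, rfl⟩ := J.elA a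
        exact hx.1.imp (fun b => J.memA.2 ⟨b, hx.2⟩) fun b => J.memA.2 ⟨b, hx.2⟩
      · rcases a with a | a <;> obtain ⟨x, hx, rfl⟩ := J.elA a
        exacts [J.memA.2 ⟨Or.inl hx.1, hx.2⟩, J.memA.2 ⟨Or.inr hx.1, hx.2⟩]
    · rw [J.memA, J.exA]
      simp only [op_iff]
      exact ⟨fun ⟨⟨x, a, b⟩, _⟩ => ⟨x, ⟨a, (H.mul_mem_cancel_left hg).1 (by rwa [← b] at hy)⟩,
        b.symm⟩, fun ⟨x, a, b⟩ => ⟨⟨x, a.1, b.symm⟩, hy⟩⟩

end Pool.Agent.Results.MP_52363e_lc.FreeInAmenable
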